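import Pool.Agent.N993.WT.Stm

set_option autoImplicit false

/-! # Project WT, step TRIV: killing `x_0` -/

namespace Pool.Agent.N434.WTT

open Pool.Agent.N993.WT

/-- the value of a letter -/
def val {X G : Type} [Group G] (F : X → G) (y : X × Bool) : G := if y.2 then F y.1 else (F y.1)⁻¹

theorem val_one {X G : Type} [Group G] {F : X → G} {x : X} (h : F x = 1) (τ : Bool) :
    val F (x, τ) = 1 := by
  unfold val
  cases τ <;> simp [h]

theorem mk_word {X : Type} (rels : Set (FreeGroup X)) (w : List (X × Bool)) :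
    PresentedGroup.mk rels (word w) =
      (w.map (val (fun x => (PresentedGroup.of x : PresentedGroup rels)))).prod := by
  have h1 : PresentedGroup.mk rels = FreeGroup.lift (fun x => (PresentedGroup.of x :
      PresentedGroup rels)) := by
    apply FreeGroup.ext_hom
    intro x
    rw [FreeGroup.lift_apply_of]
    rfl
  rw [h1, word, FreeGroup.lift_mk]
  congr 1
  apply List.map_congr_left
  intro y _
  unfold val
  cases y.2 <;> rfl

theorem t_TRIV : S_TRIV := by
  intro m c b a ℓ g hb ha
  obtain ⟨rels, hrels⟩ : ∃ rels : Set (FreeGroup (Gen (m + 1) c)), rels =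
    Set.range (fun e => word (rel b a g e)) ∪
      {(FreeGroup.of (Sum.inl 0) : FreeGroup (Gen (m + 1) c))} := ⟨_, rfl⟩
  rw [← hrels]
  obtain ⟨F, hF⟩ : ∃ F : Gen (m + 1) c → PresentedGroup rels, F = fun x => PresentedGroup.of x :=
    ⟨_, rfl⟩
  have h0 : F (Sum.inl 0) = 1 := by
    rw [hF]
    apply PresentedGroup.one_of_mem
    rw [hrels]
    exact Or.inr rfl
  have hrel : ∀ e, ((rel b a g e).map (val F)).prod = 1 := by
    intro e
    rw [hF, ← mk_word]
    apply PresentedGroup.one_of_mem
    rw [hrels]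
    exact Or.inl ⟨e, rfl⟩
  have hx : ∀ i : ℕ, ∀ hi : i < m + 1, F (Sum.inl ⟨i, hi⟩) = 1 := by
    intro i
    induction i using Nat.strong_induction_on with
    | _ i ih =>
      intro hi
      cases i with
      | zero => exact h0
      | succ i =>
        have hi' : i < m := by omega
        have h1 := hrel (Sum.inl ⟨i, hi'⟩)
        have hb' : (b ⟨i, hi'⟩).1 = ⟨i + 1, hi⟩ := by rw [hb]; rfl
        simp only [rel, List.map_cons, List.prod_cons, List.map_flatten, List.prod_flatten,
          List.map_ofFn] at h1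
        have h2 : (List.ofFn fun k : Fin (c ⟨i, hi'⟩) =>
            (List.map (val F) [(Sum.inr ⟨⟨i, hi'⟩, k⟩, true),
              (Sum.inl (a ⟨⟨i, hi'⟩, k⟩).1, (a ⟨⟨i, hi'⟩, k⟩).2),
              (Sum.inr ⟨⟨i, hi'⟩, k⟩, false)]).prod).prod = 1 := by
          apply List.prod_eq_one
          intro y hy
          rw [List.mem_ofFn] at hy
          obtain ⟨k, rfl⟩ := hy
          have h3 := ha ⟨i, hi'⟩ k
          rw [hb'] at h3
          have h4 : F (Sum.inl (a ⟨⟨i, hi'⟩, k⟩).1) = 1 := by
            have h5 : ((a ⟨⟨i, hi'⟩, k⟩).1 : ℕ) < i + 1 := h3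
            exact ih _ h5 _
          simp only [List.map_cons, List.map_nil, List.prod_cons, List.prod_nil, val_one h4]
          simp [val]
        have h6 : val F (Sum.inl (b ⟨i, hi'⟩).1, (b ⟨i, hi'⟩).2) = 1 := by
          have h7 : val F (Sum.inl (b ⟨i, hi'⟩).1, (b ⟨i, hi'⟩).2) * (List.ofFn fun k : Fin (c ⟨i, hi'⟩) =>
            (List.map (val F) [(Sum.inr ⟨⟨i, hi'⟩, k⟩, true),
              (Sum.inl (a ⟨⟨i, hi'⟩, k⟩).1, (a ⟨⟨i, hi'⟩, k⟩).2),
              (Sum.inr ⟨⟨i, hi'⟩, k⟩, false)]).prod).prod = 1 := h1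
          rwa [h2, mul_one] at h7
        rw [hb'] at h6
        unfold val at h6
        simp only at h6
        split_ifs at h6
        · exact h6
        · exact inv_eq_one.1 h6
  have hs : ∀ t, F (Sum.inr t) = 1 := by
    intro t
    have h1 := hrel (Sum.inr t)
    simp only [rel, List.map_cons, List.prod_cons, List.map_ofFn] at h1
    have h2 : (List.ofFn (val F ∘ fun i => (Sum.inl ((g t).1 i).1, ((g t).1 i).2))).prod = 1 := by
      apply List.prod_eq_one
      intro y hy
      rw [List.mem_ofFn] at hy
      obtain ⟨k, rfl⟩ := hy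
      exact val_one (hx _ _) _
    rw [h2, mul_one] at h1
    unfold val at h1
    simpa using h1
  have hall : ∀ x, F x = 1 := by
    intro x
    rcases x with x | x
    · exact hx x.1 x.2
    · exact hs x
  have hhom : MonoidHom.id (PresentedGroup rels) = 1 := by
    apply PresentedGroup.ext
    intro x
    have := hall x
    rw [hF] at this
    exact this
  intro z
  have := DFunLike.congr_fun hhom z
  exact this

end Pool.Agent.N434.WTT
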